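import Mathlib

set_option autoImplicit false

/-! # Module A of the chapter PAR (helper41)

Abstract algebra: a function with the parallelogram law is quadratic, and the trace form of a
multiplicative positive quadratic form on a commutative ring containing `i` is even. -/

namespace PiPar

/-- A1 -/
theorem biadd_of_parallelogram {M : Type*} [AddCommGroup M] (q : M → ℤ)
    (hp : ∀ P Q, q (P + Q) + q (P - Q) = 2 * q P + 2 * q Q) (P Q R : M) :
    q (P + Q + R) - q (P + Q) - q R = (q (P + R) - q P - q R) + (q (Q + R) - q Q - q R) := by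
  have h0 : q 0 = 0 := by
    have := hp 0 0
    simp only [add_zero, sub_zero] at this
    omega
  have hneg : ∀ X, q (-X) = q X := by
    intro X
    have := hp 0 X
    simp only [zero_add, zero_sub] at this
    omega
  have e1 := hp (P + Q) R
  have e2 := hp (P + R) Q
  have e3 := hp (Q + R) P
  have e4 := hp P (Q - R)
  have e5 := hp Q (R - P)
  have e6 := hp R (P - Q)
  have e7 := hp P Q
  have e8 := hp P R
  have e9 := hp Q R
  have a1 : P + R + Q = P + Q + R := by abel
  have a2 : Q + R + P = P + Q + R := by abel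
  have a3 : P + (Q - R) = P + Q - R := by abel
  have a4 : P - (Q - R) = P + R - Q := by abel
  have a5 : Q + (R - P) = Q + R - P := by abel
  have a6 : Q - (R - P) = P + Q - R := by abel
  have a7 : R + (P - Q) = P + R - Q := by abel
  have a8 : R - (P - Q) = Q + R - P := by abel
  have a9 : q (R - P) = q (P - R) := by
    rw [← hneg, neg_sub]
  rw [a1] at e2
  rw [a2] at e3
  rw [a3, a4] at e4
  rw [a5, a6, a9] at e5
  rw [a7, a8] at e6
  omega

section

variable {M : Type*} [AddCommGroup M] (q : M → ℤ)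

/-- the associated bilinear form -/
private def bil (P R : M) : ℤ := q (P + R) - q P - q R

private lemma bil_add (hp : ∀ P Q, q (P + Q) + q (P - Q) = 2 * q P + 2 * q Q) (P Q R : M) :
    bil q (P + Q) R = bil q P R + bil q Q R := biadd_of_parallelogram q hp P Q R

private lemma bil_comm (P R : M) : bil q P R = bil q R P := by
  unfold bil
  rw [add_comm P R]
  ring

/-- the associated bilinear form as a homomorphism in the first variable -/
private def bilHom (hp : ∀ P Q, q (P + Q) + q (P - Q) = 2 * q P + 2 * q Q) (R : M) : M →+ ℤ :=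
  AddMonoidHom.mk' (fun P => bil q P R) (fun P Q => bil_add q hp P Q R)

private lemma bil_zsmul (hp : ∀ P Q, q (P + Q) + q (P - Q) = 2 * q P + 2 * q Q) (n : ℤ) (P R : M) :
    bil q (n • P) R = n * bil q P R := by
  have := map_zsmul (bilHom q hp R) n P
  simpa [bilHom] using this

private lemma bil_self (hp : ∀ P Q, q (P + Q) + q (P - Q) = 2 * q P + 2 * q Q) (P : M) :
    bil q P P = 2 * q P := by
  have h0 : q 0 = 0 := by
    have := hp 0 0
    simp only [add_zero, sub_zero] at this
    omega
  have := hp P P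
  rw [sub_self, h0] at this
  unfold bil
  omega

private lemma q_zsmul (hp : ∀ P Q, q (P + Q) + q (P - Q) = 2 * q P + 2 * q Q) (n : ℤ) (P : M) :
    q (n • P) = n ^ 2 * q P := by
  have h1 := bil_self q hp (n • P)
  rw [bil_zsmul q hp, bil_comm, bil_zsmul q hp, bil_self q hp] at h1
  have : 2 * q (n • P) = 2 * (n ^ 2 * q P) := by rw [← h1]; ring
  omega

private lemma q_add (P R : M) : q (P + R) = q P + q R + bil q P R := by
  unfold bil; ring

end

/-- A2 -/
theorem even_of_mul {M k : Type*} [AddCommGroup M] [Field k] [CharZero k] (g : M →+ k) (d : M → ℤ)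
    (i0 : k) (hi : i0 ^ 2 = -1)
    (hp : ∀ P Q, d (P + Q) + d (P - Q) = 2 * d P + 2 * d Q)
    (hnn : ∀ P, 0 ≤ d P) (hd : ∀ P, d P = 0 ↔ g P = 0)
    (hmul : ∀ P Q, ∃ R, g R = g P * g Q ∧ d R = d P * d Q)
    (hI : ∀ P, ∃ R, g R = i0 * g P ∧ d R = d P)
    (P0 : M) (h1 : g P0 = 1) (hd1 : d P0 = 1) (P : M) :
    Even (d (P + P0) - d P - d P0) := by
  -- the form only depends on the value of `g`
  have hker : ∀ N Q : M, g N = 0 → bil d N Q = 0 := by
    intro N Q hN
    have hN0 : d N = 0 := (hd N).2 hN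
    have hall : ∀ n : ℤ, 0 ≤ n * bil d N Q + d Q := by
      intro n
      have h2 := hnn (n • N + Q)
      rw [q_add d, q_zsmul d hp, bil_zsmul d hp, hN0] at h2
      linarith
    by_contra hne
    rcases lt_or_gt_of_ne hne with hlt | hgt
    · have := hall (d Q + 1)
      have hQ := hnn Q
      nlinarith
    · have := hall (-(d Q + 1))
      have hQ := hnn Q
      nlinarith
  have hdg : ∀ A B : M, g A = g B → d A = d B := by
    intro A B hAB
    have hz : g (A - B) = 0 := by rw [map_sub, hAB, sub_self]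
    have h2 : A = (A - B) + B := by abel
    rw [h2, q_add d, hker _ _ hz, (hd _).2 hz]
    ring
  have hbg : ∀ A B C : M, g A = g B → bil d A C = bil d B C := by
    intro A B C hAB
    have hz : g (A - B) = 0 := by rw [map_sub, hAB, sub_self]
    have h2 : A = (A - B) + B := by abel
    rw [h2, bil_add d hp, hker _ _ hz]
    simp
  -- `1` and `i`
  obtain ⟨I0, hI0g, hI0d⟩ := hI P0
  rw [h1, mul_one] at hI0g
  rw [hd1] at hI0d
  have hI0t : bil d I0 P0 = 0 := by
    obtain ⟨R, hR, hRd⟩ := hmul (I0 + P0) (I0 + P0)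
    have hg2 : g R = g ((2 : ℤ) • I0) := by
      rw [hR, map_add, map_zsmul, hI0g, h1]
      have : (i0 + 1) * (i0 + 1) = i0 ^ 2 + 2 * i0 + 1 := by ring
      rw [this, hi]
      simp
    have h3 := hdg _ _ hg2
    rw [q_zsmul d hp, hI0d, hRd] at h3
    have h4 := q_add d I0 P0
    rw [hI0d, hd1] at h4
    have h5 := hnn (I0 + P0)
    have h6 : d (I0 + P0) = 2 := by nlinarith
    linarith
  -- elements of trace zero
  have htr : ∀ b : M, bil d b P0 = 0 → (g b) ^ 2 = -(d b : k) := by
    intro b hb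
    obtain ⟨b2, hb2g, hb2d⟩ := hmul b b
    obtain ⟨R1, hR1g, hR1d⟩ := hmul b (b + P0)
    obtain ⟨R2, hR2g, hR2d⟩ := hmul (b + P0) (b + P0)
    have e1 : d R1 = d (b2 + b) := hdg _ _ (by
      rw [hR1g, map_add, map_add, h1, hb2g]; ring)
    have e2 : d R2 = d (b2 + (2 : ℤ) • b + P0) := hdg _ _ (by
      rw [hR2g, map_add, map_add, map_add, map_zsmul, h1, hb2g]; simp; ring)
    have e3 : d (b + P0) = d b + 1 := by rw [q_add d, hb, hd1]; ring
    rw [hR1d, e3, q_add d, hb2d] at e1
    have e4 : bil d b2 b = 0 := by linarith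
    rw [hR2d, e3, q_add d, q_add d, hb2d, q_zsmul d hp, hd1, bil_comm d b2, bil_zsmul d hp,
      bil_comm d b b2, e4, bil_add d hp, bil_zsmul d hp, hb] at e2
    have e5 : bil d b2 P0 = -2 * d b := by linarith
    have e6 : d (b2 + (d b) • P0) = 0 := by
      rw [q_add d, q_zsmul d hp, hd1, hb2d, bil_comm, bil_zsmul d hp, bil_comm, e5]
      ring
    have e7 := (hd _).1 e6
    rw [map_add, map_zsmul, h1, hb2g] at e7
    have e8 : (d b) • (1 : k) = (d b : k) := by simp
    rw [e8] at e7
    linear_combination e7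
  obtain ⟨J, hJg, hJd⟩ := hI P
  set T := bil d P P0 with hT
  set U := bil d J P0 with hU
  have hI0self : bil d P0 P0 = 2 := by rw [bil_self d hp, hd1]; norm_num
  -- `B(P, i) = - U`
  have hPI : bil d P I0 = -U := by
    obtain ⟨R, hRg, hRd⟩ := hI (P + I0)
    have e1 : d R = d (J + (-1 : ℤ) • P0) := hdg _ _ (by
      rw [hRg, map_add, map_add, map_zsmul, hJg, hI0g, h1, mul_add, ← pow_two, hi]; simp)
    rw [hRd, q_add d, q_add d, q_zsmul d hp, hI0d, hJd, hd1, bil_comm d J, bil_zsmul d hp,
      bil_comm d P0 J, ← hU] at e1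
    linarith
  set b : M := (2 : ℤ) • P + (-T) • P0 + U • I0 with hb
  set b' : M := (2 : ℤ) • J + (-T) • I0 + (-U) • P0 with hb'
  have hbt : bil d b P0 = 0 := by
    rw [hb, bil_add d hp, bil_add d hp, bil_zsmul d hp, bil_zsmul d hp, bil_zsmul d hp, ← hT,
      hI0self, hI0t]
    ring
  have hbt' : bil d b' P0 = 0 := by
    rw [hb', bil_add d hp, bil_add d hp, bil_zsmul d hp, bil_zsmul d hp, bil_zsmul d hp, ← hU,
      hI0self, hI0t]
    ring
  have hgb : g b' = i0 * g b := by
    rw [hb, hb', map_add, map_add, map_add, map_add, map_zsmul, map_zsmul, map_zsmul, map_zsmul,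
      map_zsmul, map_zsmul, hJg, hI0g, h1]
    simp only [zsmul_eq_mul, mul_one]
    push_cast
    linear_combination (-(U : k)) * hi
  obtain ⟨b'', hb''g, hb''d⟩ := hI b
  have hdb : d b' = d b := by
    rw [← hb''d]
    exact hdg _ _ (by rw [hgb, hb''g])
  have s1 := htr b hbt
  have s2 := htr b' hbt'
  rw [hgb, mul_pow, hi, hdb] at s2
  have s3 : (2 : k) * (d b : k) = 0 := by linear_combination s1 + s2
  have s4 : (d b : k) = 0 := by
    rcases mul_eq_zero.1 s3 with h | h
    · exact absurd h two_ne_zero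
    · exact h
  have s5 : d b = 0 := by exact_mod_cast s4
  have hPT : bil d P0 P = T := by rw [bil_comm]
  have s6 : T ^ 2 + U ^ 2 = 4 * d P := by
    rw [hb, q_add d, q_add d, q_zsmul d hp, q_zsmul d hp, q_zsmul d hp, hd1, hI0d, bil_add d hp,
      bil_zsmul d hp, bil_zsmul d hp, bil_zsmul d hp, bil_comm d P ((-T) • P0), bil_zsmul d hp,
      bil_comm d P (U • I0), bil_zsmul d hp, bil_comm d P0 (U • I0), bil_zsmul d hp, hI0t,
      bil_comm d I0 P, hPI, hPT] at s5
    linarith
  have s7 : Even T := by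
    by_contra hodd
    rw [Int.not_even_iff_odd] at hodd
    obtain ⟨m, hm⟩ := hodd
    rcases Int.even_or_odd U with ⟨n, hn⟩ | ⟨n, hn⟩
    · rw [hm, hn] at s6
      have : 4 * (m ^ 2 + m + n ^ 2 - d P) = -1 := by nlinarith
      omega
    · rw [hm, hn] at s6
      have : 4 * (m ^ 2 + m + n ^ 2 + n - d P) = -2 := by nlinarith
      omega
  exact s7

end PiPar
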