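import Pool.Agent.Lib.MP_43d240_ag.H56.Defs

set_option autoImplicit false

/-! # Module B of the chapter PAR (helper41)

Additivity of the differential `D x / y` on the group law of `y² = x³ - x`. -/

namespace PiPar

open WeierstrassCurve WeierstrassCurve.Affine

section

variable {k F : Type*} [Field k] [Field F] [Algebra k F] [CharZero F]

omit [CharZero F] in
private lemma der_two_mul (D : Derivation k F F) (a : F) : D (2 * a) = 2 * D a := by
  have : (2 : F) * a = a + a := by ring
  rw [this, map_add]; ring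

omit [CharZero F] in
private lemma der_sq (D : Derivation k F F) (a : F) : D (a ^ 2) = 2 * a * D a := by
  rw [pow_two, D.leibniz]; simp only [smul_eq_mul]; ring

omit [CharZero F] in
private lemma der_cube (D : Derivation k F F) (a : F) : D (a ^ 3) = 3 * a ^ 2 * D a := by
  have : a ^ 3 = a * a ^ 2 := by ring
  rw [this, D.leibniz, der_sq]; simp only [smul_eq_mul]; ring

omit [CharZero F] in
private lemma der_mul (D : Derivation k F F) (a b : F) : D (a * b) = a * D b + b * D a := by
  rw [D.leibniz]; simp only [smul_eq_mul]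

/-- `D x = ω y` and `2 D y = (3 x² - 1) ω` with `ω = D x / y`. -/
private lemma der_curve (D : Derivation k F F) (x y : F) (h : y ^ 2 = x ^ 3 - x) :
    D x = (D x / y) * y ∧ 2 * D y = (3 * x ^ 2 - 1) * (D x / y) := by
  have h1 : 2 * y * D y = (3 * x ^ 2 - 1) * D x := by
    have := congrArg D h
    rw [der_sq, map_sub, der_cube] at this
    rw [this]; ring
  by_cases hy : y = 0
  · subst hy
    have h2 : (3 * x ^ 2 - 1) * D x = 0 := by rw [← h1]; ring
    have h3 : (3 * x ^ 2 - 1) ≠ 0 := by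
      intro hc
      have e1 : x ^ 3 - x = 0 := by rw [← h]; ring
      have e2 : x = 0 := by linear_combination (x / 2) * hc - (3 / 2 : F) * e1
      rw [e2] at hc
      norm_num at hc
    have h4 : D x = 0 := by
      rcases mul_eq_zero.1 h2 with h' | h'
      · exact absurd h' h3
      · exact h'
    rw [h4]
    simp
  · constructor
    · field_simp
    · field_simp
      linear_combination h1

/-- the conclusion from the two identities -/
private lemma der_concl (D : Derivation k F F) (x y w : F) (h : y ^ 2 = x ^ 3 - x)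
    (h1 : D x = w * y) (h2 : 2 * D y = (3 * x ^ 2 - 1) * w) : D x / y = w := by
  by_cases hy : y = 0
  · subst hy
    have h3 : (3 * x ^ 2 - 1) ≠ 0 := by
      intro hc
      have e1 : x ^ 3 - x = 0 := by rw [← h]; ring
      have e2 : x = 0 := by linear_combination (x / 2) * hc - (3 / 2 : F) * e1
      rw [e2] at hc
      norm_num at hc
    have h4 : (3 * x ^ 2 - 1) * w = 0 := by rw [← h2]; simp
    rcases mul_eq_zero.1 h4 with h' | h'
    · exact absurd h' h3
    · rw [h']; simp
  · rw [h1]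
    field_simp

/-- the chord -/
private lemma chord (D : Derivation k F F) (x1 y1 x2 y2 l x3 y3 : F)
    (h1 : y1 ^ 2 = x1 ^ 3 - x1) (h2 : y2 ^ 2 = x2 ^ 3 - x2) (hx : x1 ≠ x2)
    (hl : l * (x1 - x2) = y1 - y2) (hx3 : x3 = l ^ 2 - x1 - x2) (hy3 : y3 = -(l * (x3 - x1) + y1))
    (h3 : y3 ^ 2 = x3 ^ 3 - x3) :
    D x3 / y3 = D x1 / y1 + D x2 / y2 := by
  have hd : x1 - x2 ≠ 0 := sub_ne_zero.2 hx
  obtain ⟨a1, b1⟩ := der_curve D x1 y1 h1
  obtain ⟨a2, b2⟩ := der_curve D x2 y2 h2
  set w1 := D x1 / y1 with hw1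
  set w2 := D x2 / y2 with hw2
  -- `2 l y1 - l² (x1 - x2) = x1² + x1 x2 + x2² - 1`
  have r4 : 2 * l * y1 - l ^ 2 * (x1 - x2) = x1 ^ 2 + x1 * x2 + x2 ^ 2 - 1 := by
    apply mul_left_cancel₀ hd
    have hy2 : y2 = y1 - l * (x1 - x2) := by linear_combination hl
    rw [hy2] at h2
    linear_combination h1 - h2
  have r5 : 2 * l * y2 + l ^ 2 * (x1 - x2) = x1 ^ 2 + x1 * x2 + x2 ^ 2 - 1 := by
    linear_combination r4 + 2 * l * hl
  have hDl : 2 * D l = w1 * (x1 - x3) + w2 * (x2 - x3) := by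
    apply mul_left_cancel₀ hd
    have e1 := congrArg D hl
    rw [der_mul, map_sub, map_sub] at e1
    have e2 : (x1 - x2) * (2 * D l) = 2 * D y1 - 2 * D y2 - 2 * l * (D x1 - D x2) := by
      linear_combination 2 * e1
    rw [e2, b1, b2, a1, a2, hx3]
    linear_combination (-w1) * r4 + w2 * r5
  have hDx3 : D x3 = (w1 + w2) * y3 := by
    have e1 : D x3 = 2 * l * D l - D x1 - D x2 := by
      rw [hx3, map_sub, map_sub, der_sq]
    rw [e1, a1, a2, hy3]
    linear_combination l * hDl - w2 * hl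
  have hDy3 : 2 * D y3 = (3 * x3 ^ 2 - 1) * (w1 + w2) := by
    have e1 : D y3 = -(D l * (x3 - x1) + l * (D x3 - D x1) + D y1) := by
      have e2 := congrArg D hy3
      rw [map_neg, map_add, der_mul, map_sub] at e2
      rw [e2]; ring
    have e3 : 2 * D y3 = -((2 * D l) * (x3 - x1) + 2 * l * (D x3 - D x1) + 2 * D y1) := by
      rw [e1]; ring
    rw [e3, hDl, hDx3, a1, b1]
    have hl2 : l ^ 2 = x1 + x2 + x3 := by rw [hx3]; ring
    rw [hy3]
    have r4' : 2 * l * y1 = (x1 + x2 + x3) * (x1 - x2) + (x1 ^ 2 + x1 * x2 + x2 ^ 2 - 1) := by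
      rw [← hl2]; linear_combination r4
    linear_combination (2 * (w1 + w2) * (x3 - x1)) * hl2 + (2 * w1 + w2) * r4'
  exact der_concl D x3 y3 (w1 + w2) h3 hDx3 hDy3

/-- the tangent -/
private lemma tangent (D : Derivation k F F) (x1 y1 l x3 y3 : F)
    (h1 : y1 ^ 2 = x1 ^ 3 - x1) (hy : y1 ≠ 0)
    (hl : l * (2 * y1) = 3 * x1 ^ 2 - 1) (hx3 : x3 = l ^ 2 - x1 - x1)
    (hy3 : y3 = -(l * (x3 - x1) + y1))
    (h3 : y3 ^ 2 = x3 ^ 3 - x3) :
    D x3 / y3 = D x1 / y1 + D x1 / y1 := by
  obtain ⟨a1, b1⟩ := der_curve D x1 y1 h1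
  set w1 := D x1 / y1 with hw1
  have hDl : D l = w1 * (3 * x1 - l ^ 2) := by
    have h2y : (2 * y1) ≠ 0 := mul_ne_zero two_ne_zero hy
    apply mul_left_cancel₀ h2y
    have e1 := congrArg D hl
    rw [der_mul, der_two_mul, map_sub] at e1
    have e2 : D (3 * x1 ^ 2) = 6 * x1 * D x1 := by
      have : (3 : F) * x1 ^ 2 = x1 ^ 2 + x1 ^ 2 + x1 ^ 2 := by ring
      rw [this, map_add, map_add, der_sq]; ring
    have e3 : D (1 : F) = 0 := D.map_one_eq_zero
    rw [e2, e3, a1, b1] at e1
    linear_combination e1 + (w1 * l) * hl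
  have hDx3 : D x3 = (w1 + w1) * y3 := by
    have e1 : D x3 = 2 * l * D l - D x1 - D x1 := by
      rw [hx3, map_sub, map_sub, der_sq]
    rw [e1, a1, hy3, hDl, hx3]
    ring
  have hDy3 : 2 * D y3 = (3 * x3 ^ 2 - 1) * (w1 + w1) := by
    have e1 : D y3 = -(D l * (x3 - x1) + l * (D x3 - D x1) + D y1) := by
      have e2 := congrArg D hy3
      rw [map_neg, map_add, der_mul, map_sub] at e2
      rw [e2]; ring
    have e3 : 2 * D y3 = -(2 * D l * (x3 - x1) + 2 * l * (D x3 - D x1) + 2 * D y1) := by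
      rw [e1]; ring
    rw [e3, hDl, hDx3, a1, b1, hy3, hx3]
    linear_combination (3 * w1) * hl
  exact der_concl D x3 y3 (w1 + w1) h3 hDx3 hDy3

end

theorem gQ_add {k F : Type*} [Field k] [Field F] [Algebra k F] [CharZero F] [DecidableEq F]
    (D : Derivation k F F) (P Q : Pt F) : gQ D (P + Q) = gQ D P + gQ D Q := by
  rcases P with _ | ⟨x1, y1, h1⟩
  · have : (WeierstrassCurve.Affine.Point.zero : Pt F) = 0 := rfl
    rw [this, zero_add]
    simp [gQ]
  rcases Q with _ | ⟨x2, y2, h2⟩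
  · have : (WeierstrassCurve.Affine.Point.zero : Pt F) = 0 := rfl
    rw [this, add_zero]
    simp [gQ]
  have e1 : y1 ^ 2 = x1 ^ 3 - x1 := (EF_nonsingular two_ne_zero x1 y1).1 h1
  have e2 : y2 ^ 2 = x2 ^ 3 - x2 := (EF_nonsingular two_ne_zero x2 y2).1 h2
  by_cases hxy : x1 = x2 ∧ y1 = (EF F).negY x2 y2
  · rw [WeierstrassCurve.Affine.Point.add_of_Y_eq hxy.1 hxy.2]
    obtain ⟨hx, hy⟩ := hxy
    rw [EF_negY] at hy
    subst hx
    subst hy
    have : (0 : Pt F) = WeierstrassCurve.Affine.Point.zero := rfl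
    rw [this]
    simp only [gQ]
    rw [div_neg]
    ring
  · rw [WeierstrassCurve.Affine.Point.add_some hxy]
    have e3 := (EF_nonsingular two_ne_zero _ _).1 (nonsingular_add h1 h2 hxy)
    simp only [gQ]
    rw [EF_negY] at hxy
    set l := (EF F).slope x1 x2 y1 y2 with hl
    have hX : (EF F).addX x1 x2 l = l ^ 2 - x1 - x2 := by
      simp only [WeierstrassCurve.Affine.addX, EF_a1, EF_a2]; ring
    have hY : (EF F).addY x1 x2 y1 l = -(l * ((EF F).addX x1 x2 l - x1) + y1) := by
      simp only [WeierstrassCurve.Affine.addY, WeierstrassCurve.Affine.negAddY, EF_negY]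
    by_cases hx : x1 = x2
    · subst hx
      have hyy : y1 = y2 := by
        have : (y1 - y2) * (y1 + y2) = 0 := by linear_combination e1 - e2
        rcases mul_eq_zero.1 this with h | h
        · exact sub_eq_zero.1 h
        · exact absurd ⟨rfl, by linear_combination h⟩ hxy
      subst hyy
      have hy0 : y1 ≠ 0 := by
        intro h0
        exact hxy ⟨rfl, by rw [h0]; ring⟩
      have hslope : l * (2 * y1) = 3 * x1 ^ 2 - 1 := by
        have hne : y1 ≠ (EF F).negY x1 y1 := by
          rw [EF_negY]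
          intro h
          exact hxy ⟨rfl, h⟩
        rw [hl, WeierstrassCurve.Affine.slope_of_Y_ne rfl hne]
        rw [EF_negY]
        simp only [EF_a1, EF_a2, EF_a4]
        have h2y : y1 - -y1 ≠ 0 := by
          intro h
          exact hne (by rw [EF_negY]; linear_combination h)
        rw [div_mul_eq_mul_div, div_eq_iff h2y]
        ring
      exact tangent D x1 y1 l _ _ e1 hy0 hslope hX hY e3
    · have hslope : l * (x1 - x2) = y1 - y2 := by
        rw [hl, WeierstrassCurve.Affine.slope_of_X_ne hx]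
        exact div_mul_cancel₀ _ (sub_ne_zero.2 hx)
      exact chord D x1 y1 x2 y2 l _ _ e1 e2 hx hslope hX hY e3

end PiPar
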